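import Pool.Agent.H683.BW.Stm

/-!
Subtask of project BW (helper683): the number of chains is at most four times the width.
-/

set_option autoImplicit false

namespace Pool.Agent.H84.BW

open Pool.Agent.NPC Pool.Agent.H633R2 Pool.Agent.H683.BW Finset

theorem len_filter_range (n : ℕ) (p : ℕ → Bool) :
    ((List.range n).filter p).length = #(univ.filter (fun v : Fin n => p v = true)) := by
  have h1 : ((List.range n).filter p).length = #((Finset.range n).filter (fun v => p v = true)) := by
    rw [← List.toFinset_card_of_nodup ((List.nodup_range).filter _)]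
    congr 1
    ext v
    simp
  rw [h1]
  symm
  refine Finset.card_bij (fun v _ => (v : ℕ)) ?_ ?_ ?_
  · intro a ha
    simp only [mem_filter, mem_univ, true_and] at ha
    simp [ha]
  · intro a _ b _ h
    exact Fin.ext h
  · intro b hb
    simp only [mem_filter, mem_range] at hb
    exact ⟨⟨b, hb.1⟩, by simp [hb.2], rfl⟩

/-- Counting in an oriented tree. -/
theorem tree_count {V : Type} [Fintype V] [DecidableEq V] (R : V → V → Prop) [DecidableRel R]
    (G : SimpleGraph V) [DecidableRel G.Adj] (hG : G.IsTree)
    (hadj : ∀ i j, G.Adj i j ↔ (R i j ∨ R j i)) (hasym : ∀ i j, R i j → ¬ R j i) :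
    (∑ v, #(univ.filter (fun u => R u v)) + 1 = Fintype.card V) ∧
    (∑ u, #(univ.filter (fun v => R u v)) + 1 = Fintype.card V) := by
  have h1 := hG.card_edgeFinset
  have h2 := G.sum_degrees_eq_twice_card_edges
  have h3 : ∀ v, G.degree v = #(univ.filter (fun u => R u v)) + #(univ.filter (fun u => R v u)) := by
    intro v
    rw [← SimpleGraph.card_neighborFinset_eq_degree, ← Finset.card_union_of_disjoint]
    · congr 1
      ext u
      simp only [SimpleGraph.mem_neighborFinset, mem_union, mem_filter, mem_univ, true_and]
      rw [hadj]
      tauto
    · rw [Finset.disjoint_left]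
      intro u hu hu'
      simp only [mem_filter, mem_univ, true_and] at hu hu'
      exact hasym _ _ hu hu'
  have h4 : ∑ v, #(univ.filter (fun u => R u v)) = ∑ u, #(univ.filter (fun v => R u v)) := by
    simp only [Finset.card_filter]
    exact Finset.sum_comm
  have h5 : ∑ v, G.degree v = ∑ v, #(univ.filter (fun u => R u v)) +
      ∑ v, #(univ.filter (fun u => R v u)) := by
    rw [← Finset.sum_add_distrib]
    exact Finset.sum_congr rfl fun v _ => h3 v
  constructor <;> omega

theorem anti_le_width (M : List (List Bool)) (S : Finset (Fin M.length)) (hS : IsAnti M S) :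
    #S ≤ width M := by
  unfold width
  apply le_csSup
  · refine ⟨M.length, ?_⟩
    rintro k ⟨T, -, rfl⟩
    exact (Finset.card_le_univ T).trans (by simp)
  · exact ⟨S, hS, rfl⟩

theorem K : S_K := by
  classical
  intro M hM
  obtain ⟨hasym, htree⟩ := hM
  set n := M.length with hn
  let R : Fin M.length → Fin M.length → Prop := Arc M
  have hadj : ∀ i j, (graphOf M).Adj i j ↔ (R i j ∨ R j i) := by
    intro i j
    constructor
    · intro h
      exact h.2
    · intro h
      refine ⟨?_, h⟩
      rintro rfl
      rcases h with h | h
      · exact hasym _ _ h h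
      · exact hasym _ _ h h
  obtain ⟨hin, hout⟩ := tree_count R (graphOf M) htree hadj hasym
  set ind : Fin M.length → ℕ := fun v => #(univ.filter (fun u => R u v)) with hind
  set outd : Fin M.length → ℕ := fun u => #(univ.filter (fun v => R u v)) with houtd
  have hI : ∀ v : Fin M.length, (ins M v).length = ind v := by
    intro v
    unfold ins
    rw [len_filter_range]
    change _ = #(univ.filter (fun u => R u v))
    congr 1
    ext u
    rw [mem_filter, mem_filter]
    rfl
  have hO : ∀ v : Fin M.length, (outs M v).length = outd v := by
    intro v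
    unfold outs
    rw [len_filter_range]
    change _ = #(univ.filter (fun u => R v u))
    congr 1
    ext u
    rw [mem_filter, mem_filter]
    rfl
  -- sources and sinks
  have hS : #(univ.filter (fun v => ind v = 0)) ≤ width M := by
    apply anti_le_width
    intro i _ j hj hij ht
    simp only [mem_filter, mem_univ, true_and] at hj
    obtain ⟨k, -, hk⟩ := Relation.TransGen.tail'_iff.1 ht
    have : k ∈ univ.filter (fun u => R u j) := by
      simp only [mem_filter, mem_univ, true_and]
      exact hk
    have h2 : univ.filter (fun u => R u j) = ∅ := Finset.card_eq_zero.1 hj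
    rw [h2] at this
    exact absurd this (Finset.notMem_empty _)
  have hT : #(univ.filter (fun v => outd v = 0)) ≤ width M := by
    apply anti_le_width
    intro i hi j _ hij ht
    simp only [mem_filter, mem_univ, true_and] at hi
    obtain ⟨k, hk, -⟩ := Relation.TransGen.head'_iff.1 ht
    have : k ∈ univ.filter (fun u => R i u) := by
      simp only [mem_filter, mem_univ, true_and]
      exact hk
    have h2 : univ.filter (fun u => R i u) = ∅ := Finset.card_eq_zero.1 hi
    rw [h2] at this
    exact absurd this (Finset.notMem_empty _)
  have hA : #(univ.filter (fun v => 2 ≤ ind v)) + 1 ≤ #(univ.filter (fun v => ind v = 0)) := by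
    have h : ∑ v : Fin M.length, (1 + if 2 ≤ ind v then 1 else 0) ≤
        ∑ v, (ind v + if ind v = 0 then 1 else 0) := by
      apply Finset.sum_le_sum
      intro v _
      split_ifs <;> omega
    rw [Finset.sum_add_distrib, Finset.sum_add_distrib, ← Finset.card_filter, ← Finset.card_filter,
      Finset.sum_const, smul_eq_mul, mul_one, Finset.card_univ] at h
    have h' : ∑ v, ind v + 1 = Fintype.card (Fin M.length) := hin
    omega
  have hB : (∑ u, if 2 ≤ outd u then outd u else 0) + 2 ≤ 2 * #(univ.filter (fun v => outd v = 0)) := by
    have h : ∑ v : Fin M.length, (2 + if 2 ≤ outd v then outd v else 0) ≤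
        ∑ v, (2 * outd v + 2 * if outd v = 0 then 1 else 0) := by
      apply Finset.sum_le_sum
      intro v _
      split_ifs <;> omega
    rw [Finset.sum_add_distrib, Finset.sum_add_distrib, ← Finset.mul_sum, ← Finset.mul_sum,
      ← Finset.card_filter, Finset.sum_const, smul_eq_mul, Finset.card_univ] at h
    have h' : ∑ v, outd v + 1 = Fintype.card (Fin M.length) := hout
    omega
  have hlen : (heads M).length = #(univ.filter (fun v : Fin M.length =>
      ((List.range M.length).all fun u => !link M u v) = true)) := by
    unfold heads
    rw [len_filter_range]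
  have hsub : (univ.filter (fun v : Fin M.length =>
      ((List.range M.length).all fun u => !link M u v) = true)) ⊆
      (univ.filter (fun v => ind v = 0)) ∪ (univ.filter (fun v => 2 ≤ ind v)) ∪
        ((univ.filter (fun u => 2 ≤ outd u)).biUnion fun u => univ.filter (fun v => R u v)) := by
    intro v hv
    simp only [mem_filter, mem_univ, true_and, List.all_eq_true, List.mem_range] at hv
    simp only [mem_union, mem_filter, mem_univ, true_and, mem_biUnion]
    by_cases h0 : ind v = 0
    · exact Or.inl (Or.inl h0)
    by_cases h2 : 2 ≤ ind v
    · exact Or.inl (Or.inr h2)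
    right
    have h1 : ind v = 1 := by omega
    have hpos : 0 < #(univ.filter (fun u => R u v)) := by
      change 0 < ind v
      omega
    obtain ⟨u, hu⟩ := Finset.card_pos.1 hpos
    simp only [mem_filter, mem_univ, true_and] at hu
    refine ⟨u, ?_, hu⟩
    have hl := hv u u.isLt
    simp only [Bool.not_eq_true', link, hO, hI, h1] at hl
    have he : entry M u v = true := hu
    rw [he] at hl
    have hne : outd u ≠ 1 := by
      intro h
      rw [h] at hl
      simp at hl
    have hpos' : 0 < outd u := by
      apply Finset.card_pos.2
      exact ⟨v, by simp only [mem_filter, mem_univ, true_and]; exact hu⟩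
    omega
  have hcard := Finset.card_le_card hsub
  have hbi : #((univ.filter (fun u => 2 ≤ outd u)).biUnion fun u => univ.filter (fun v => R u v)) ≤
      ∑ u, if 2 ≤ outd u then outd u else 0 := by
    refine Finset.card_biUnion_le.trans ?_
    rw [Finset.sum_filter]
  have hu1 := Finset.card_union_le ((univ.filter (fun v => ind v = 0)) ∪
    (univ.filter (fun v => 2 ≤ ind v)))
    ((univ.filter (fun u => 2 ≤ outd u)).biUnion fun u => univ.filter (fun v => R u v))
  have hu2 := Finset.card_union_le (univ.filter (fun v => ind v = 0))
    (univ.filter (fun v => 2 ≤ ind v))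
  rw [hlen]
  omega

end Pool.Agent.H84.BW
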